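import Pool.Agent.Lib.MP_b893bf_co.Transv

set_option autoImplicit false

namespace Pool.Agent.Results.MP_b893bf_co.SimplePoly

open Set

/-- A drawing of `G` in the plane: distinct points for the vertices, a Jordan arc for every edge
joining its two ends and avoiding all vertices in its interior, and no point interior to three
edges. -/
structure Drawing {V : Type} (G : SimpleGraph V) where
  pos : V → ℝ × ℝ
  arc : G.edgeSet → ℝ → ℝ × ℝ
  pos_inj : Function.Injective pos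
  cont : ∀ e, ContinuousOn (arc e) (Icc 0 1)
  arc_inj : ∀ e, InjOn (arc e) (Icc 0 1)
  ends : ∀ e : G.edgeSet, ∃ u v, (e : Sym2 V) = s(u, v) ∧ arc e 0 = pos u ∧ arc e 1 = pos v
  avoid : ∀ e w, ∀ t ∈ Ioo (0 : ℝ) 1, arc e t ≠ pos w
  no_triple : ∀ e f g, e ≠ f → e ≠ g → f ≠ g →
    arc e '' Ioo 0 1 ∩ arc f '' Ioo 0 1 ∩ arc g '' Ioo 0 1 = ∅

variable {V : Type} {G : SimpleGraph V}

/-- Every edge has at most `k` interior points that are interior points of another edge. -/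
def Drawing.Planar (D : Drawing G) (k : ℕ) : Prop :=
  ∀ e, {z | z ∈ D.arc e '' Ioo 0 1 ∧ ∃ f, f ≠ e ∧ z ∈ D.arc f '' Ioo 0 1}.encard ≤ k

/-- Two different edges (closed arcs) have at most one point in common. -/
def Drawing.Simple (D : Drawing G) : Prop :=
  ∀ e f, e ≠ f → (D.arc e '' Icc 0 1 ∩ D.arc f '' Icc 0 1).Subsingleton

/-- Near `z` the set `A` is the horizontal and the set `B` the vertical line through `z`. -/
def Cross (A B : Set (ℝ × ℝ)) (z : ℝ × ℝ) : Prop :=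
  ∃ r > 0, ∀ w ∈ Metric.ball z r, (w ∈ A ↔ w.2 = z.2) ∧ (w ∈ B ↔ w.1 = z.1)

/-- Every common interior point of two edges is a right-angle crossing of two straight pieces. -/
def Drawing.Transversal (D : Drawing G) : Prop :=
  ∀ e f, e ≠ f → ∀ z ∈ D.arc e '' Ioo 0 1 ∩ D.arc f '' Ioo 0 1,
    Cross (D.arc e '' Icc 0 1) (D.arc f '' Icc 0 1) z ∨
      Cross (D.arc f '' Icc 0 1) (D.arc e '' Icc 0 1) z

theorem cross_of {A B : Set (ℝ × ℝ)} {z : ℝ × ℝ} (h : Lib.MP_b893bf_co.Hor A z)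
    (h' : Lib.MP_b893bf_co.Ver B z) : Cross A B z := by
  obtain ⟨r, hr, h⟩ := h
  obtain ⟨r', hr', h'⟩ := h'
  exact ⟨min r r', lt_min hr hr', fun w hw =>
    ⟨h w (Metric.ball_subset_ball (min_le_left _ _) hw),
      h' w (Metric.ball_subset_ball (min_le_right _ _) hw)⟩⟩

theorem result : ∃ p : Polynomial ℕ, ∀ (V : Type) [Finite V] (G : SimpleGraph V) (k : ℕ),
    (∃ D : Drawing G, D.Planar k) →
      ∃ D : Drawing G, D.Transversal ∧ D.Simple ∧ D.Planar (p.eval k) := by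
  classical
  obtain ⟨T, hT⟩ := Lib.MP_b893bf_co.redrawT
  refine ⟨4 * (Polynomial.X + 1) ^ T, fun V _ G k ⟨D, hD⟩ => ?_⟩
  have := Fintype.ofFinite G.edgeSet
  have hd : ∀ e : G.edgeSet, ¬ (e : Sym2 V).IsDiag := fun e => G.not_isDiag_of_mem_edgeSet e.2
  obtain ⟨B, C, H⟩ := Lib.MP_b893bf_co.exists_model (E := G.edgeSet) Subtype.val hd k D.pos D.arc
    D.pos_inj D.cont D.ends D.avoid (by
      intro e
      let X : Finset G.edgeSet := Finset.univ.filter fun f =>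
        f ≠ e ∧ (D.arc e '' Ioo 0 1 ∩ D.arc f '' Ioo 0 1).Nonempty
      refine ⟨X, ?_, fun f hf h => Finset.mem_filter.2 ⟨Finset.mem_univ _, hf, h⟩⟩
      have h1 : ∀ f : G.edgeSet, ∃ z, f ∈ X → z ∈ D.arc e '' Ioo 0 1 ∩ D.arc f '' Ioo 0 1 := by
        intro f
        by_cases h : f ∈ X
        · obtain ⟨z, hz⟩ := (Finset.mem_filter.1 h).2.2
          exact ⟨z, fun _ => hz⟩
        · exact ⟨0, fun h' => (h h').elim⟩
      choose z hz using h1
      have h2 : (X : Set G.edgeSet).encard ≤ k := by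
        refine le_trans (Set.encard_le_encard_of_injOn (f := z) (fun f hf => ?_)
          fun f hf g hg hfg => ?_) (hD e)
        · exact ⟨(hz f hf).1, f, (Finset.mem_filter.1 hf).2.1, (hz f hf).2⟩
        · by_contra hne
          have h3 := D.no_triple e f g (Finset.mem_filter.1 hf).2.1.symm
            (Finset.mem_filter.1 hg).2.1.symm hne
          exact eq_empty_iff_forall_notMem.1 h3 (z f) ⟨hz f hf, hfg ▸ (hz g hg).2⟩
      rw [Set.encard_coe_eq_coe_finsetCard] at h2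
      exact_mod_cast h2)
  obtain ⟨pos, arc, a1, a2, a3, a4, a5⟩ :=
    hT V G.edgeSet Subtype.val Subtype.val_injective hd k B C H
  refine ⟨⟨pos, arc, a1, fun e => (a2 e).1.continuousOn, fun e => (a2 e).2.1,
    fun e => (a2 e).2.2.1, fun e => (a2 e).2.2.2, fun e f g hef heg hfg => ?_⟩,
    fun e f hef z hz => ?_, fun e f hef => ?_, fun e => ?_⟩
  · refine eq_empty_of_forall_notMem fun z ⟨⟨h1, h2⟩, h3⟩ => ?_
    rcases a4 e f hef z ⟨h1, h2⟩ with k1 | k1 <;> rcases a4 e g heg z ⟨h1, h3⟩ with k2 | k2 <;>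
      rcases a4 f g hfg z ⟨h2, h3⟩ with k3 | k3
    exacts [k3.1.not_ver k1.2, k3.1.not_ver k2.2, k1.1.not_ver k2.2, k1.1.not_ver k2.2,
      k2.1.not_ver k1.2, k2.1.not_ver k1.2, k2.1.not_ver k3.2, k1.1.not_ver k3.2]
  · exact (a4 e f hef z hz).imp (fun h => cross_of h.1 h.2) fun h => cross_of h.1 h.2
  · have cls : ∀ (e : G.edgeSet) z, z ∈ arc e '' Icc 0 1 →
        z ∈ arc e '' Ioo 0 1 ∨ ∃ u ∈ (e : Sym2 V), z = pos u := by
      rintro e _ ⟨t, ht, rfl⟩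
      obtain ⟨u, v, h1, h2, h3⟩ := (a2 e).2.2.1
      rcases ht.1.eq_or_lt with rfl | h0
      · exact Or.inr ⟨u, by simp [h1], h2⟩
      rcases ht.2.eq_or_lt with rfl | h4
      · exact Or.inr ⟨v, by simp [h1], h3⟩
      · exact Or.inl ⟨t, ⟨h0, h4⟩, rfl⟩
    have two : ∀ z ∈ arc e '' Icc 0 1 ∩ arc f '' Icc 0 1,
        z ∈ arc e '' Ioo 0 1 ∩ arc f '' Ioo 0 1 ∨
          ∃ u, u ∈ (e : Sym2 V) ∧ u ∈ (f : Sym2 V) ∧ z = pos u := by
      intro z hz
      rcases cls e z hz.1 with h1 | ⟨u, hu, rfl⟩ <;> rcases cls f _ hz.2 with h2 | ⟨v, hv, h2⟩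
      · exact Or.inl ⟨h1, h2⟩
      · obtain ⟨t, ht, h3⟩ := h1
        exact ((a2 e).2.2.2 v t ht (h3.trans h2)).elim
      · obtain ⟨t, ht, h3⟩ := h2
        exact ((a2 f).2.2.2 u t ht h3).elim
      · exact Or.inr ⟨u, hu, a1 h2 ▸ hv, rfl⟩
    intro z hz z' hz'
    rcases two z hz with h1 | ⟨u, h1, h2, rfl⟩ <;> rcases two z' hz' with h3 | ⟨v, h3, h4, rfl⟩
    · exact (a3 e f hef).1 h1 h3
    · exact ((a3 e f hef).2 ⟨v, h3, h4⟩ ▸ h1 : z ∈ (∅ : Set (ℝ × ℝ))).elim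
    · exact ((a3 e f hef).2 ⟨u, h1, h2⟩ ▸ h3 : z' ∈ (∅ : Set (ℝ × ℝ))).elim
    · by_contra hne
      exact hef (Subtype.ext (Sym2.eq_of_ne_mem (fun h => hne (congrArg pos h)) h1 h3 h2 h4))
  · obtain ⟨X, x1, x2⟩ := a5 e
    have h1 : ∀ f : G.edgeSet, ∃ z, f ≠ e → ∀ w ∈ arc e '' Ioo 0 1 ∩ arc f '' Ioo 0 1, w = z := by
      intro f
      by_cases h : (arc e '' Ioo 0 1 ∩ arc f '' Ioo 0 1).Nonempty
      · obtain ⟨z, hz⟩ := h
        exact ⟨z, fun hf w hw => (a3 e f hf.symm).1 hw hz⟩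
      · exact ⟨0, fun _ w hw => (h ⟨w, hw⟩).elim⟩
    choose z hz using h1
    refine le_trans (Set.encard_le_encard (t := z '' (X : Set G.edgeSet)) ?_)
      ((Set.encard_image_le _ _).trans ?_)
    · rintro w ⟨h2, f, hf, h3⟩
      exact ⟨f, x2 f hf ⟨w, h2, h3⟩, (hz f hf w ⟨h2, h3⟩).symm⟩
    · rw [Set.encard_coe_eq_coe_finsetCard]
      exact_mod_cast x1.trans (by simp)

end Pool.Agent.Results.MP_b893bf_co.SimplePoly
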